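import Pool.Agent.Helper38.LinL.Grammar

/-!
# Grammars with few shapes, and layered grid graph reachability
-/

namespace Pool.Agent.Helper38.LinTwo

open Pool.Agent.Helper38.LinL

/-- All recursive rules are of the form `A → u A v`, and for every nonterminal `A` there are
pairs `s` and `t` such that the shape `(|u|, |v|)` of each of these rules is `s`, `t` or `s + t`.
(A rule `A → u B v` is recursive if `A` is derivable from `B`.) -/
def PlanarShapes {α : Type} (G : LinearGrammar α) : Prop :=
  ∀ A, ∃ s t : ℕ × ℕ, ∀ u B v, (A, u, B, v) ∈ G.rules → (∃ x y, G.Derives B x A y) →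
    B = A ∧ ((u.length, v.length) = s ∨ (u.length, v.length) = t ∨
      (u.length, v.length) = s + t)

/-- A step in the grid graph with vertices `(i, j)`, `i, j < n`, given by the word `w` of length
`n * n`: the letter number `i * n + j` of `w` says whether there is an edge from `(i, j)` to
`(i, j + 1)`, whether there is an edge from `(i, j)` to `(i + 1, j)`, and whether `(i, j)` is a
target. -/
inductive GridStep (n : ℕ) (w : List (Bool × Bool × Bool)) : ℕ × ℕ → ℕ × ℕ → Prop
  | east {i j : ℕ} {b c : Bool} : i < n → j + 1 < n → w[i * n + j]? = some (true, b, c) →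
      GridStep n w (i, j) (i, j + 1)
  | south {i j : ℕ} {b c : Bool} : i + 1 < n → j < n → w[i * n + j]? = some (b, true, c) →
      GridStep n w (i, j) (i + 1, j)

/-- Layered grid graph reachability: the words describing a square grid graph in which a target
is reachable from the vertex `(0, 0)`. -/
def LGGR : Set (List (Bool × Bool × Bool)) :=
  {w | ∃ n i j : ℕ, w.length = n * n ∧ i < n ∧ j < n ∧
    (∃ b c, w[i * n + j]? = some (b, c, true)) ∧
    Relation.ReflTransGen (GridStep n w) (0, 0) (i, j)}

/-- Five letters. -/
inductive Let : Type
  | a : Let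
  | b : Let
  | zero : Let
  | one : Let
  | c : Let
  deriving DecidableEq, Fintype

/-- The grammar `S → a S 0 | a S 1 | b S 0 | b S 0 0 | c`. -/
def G4 : LinearGrammar Let where
  N := Unit
  finN := inferInstance
  start := ()
  rules := {((), [Let.a], (), [Let.zero]), ((), [Let.a], (), [Let.one]),
    ((), [Let.b], (), [Let.zero]), ((), [Let.b], (), [Let.zero, Let.zero])}
  term := {((), [Let.c])}

end Pool.Agent.Helper38.LinTwo
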