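import Pool.Agent.Helper38.LinTwo.Defs
import Pool.Agent.Helper38.LinL.Decomp
import Pool.Agent.Helper38.LinL.Conv

/-!
# Grammars with two shapes reduce to layered grid graph reachability
-/

namespace Pool.Agent.Helper38.LinTwo

open Classical Pool.Agent.Helper38.LinL Pool.Agent.Helper38.LinL.LinearGrammar

set_option linter.unusedSimpArgs false
set_option linter.unusedVariables false
set_option linter.unusedSectionVars false

variable {α : Type}

section loops

variable (G : LinearGrammar α)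

/-- One application of a rule `A → u A v`. -/
def LStep (A : G.N) (cL cR : ℕ → Option α) (c c' : ℕ × ℕ) : Prop :=
  ∃ u v, (A, u, A, v) ∈ G.rules ∧ c' = (c.1 + u.length, c.2 + v.length) ∧
    Mt (fun k => cL (c.1 + k)) u ∧ Mt (fun k => cR (c.2 + k)) v.reverse

variable {G}

theorem loop_of_derives {A : G.N}
    (hA : ∀ u B v, (A, u, B, v) ∈ G.rules → (∃ x y, G.Derives B x A y) → B = A)
    {cL cR : ℕ → Option α} {u v : List α} {B : G.N} (h : G.Derives A u B v) :
    (∃ x y, G.Derives B x A y) → Mt cL u → Mt cR v.reverse →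
    B = A ∧ Relation.ReflTransGen (LStep G A cL cR) (0, 0) (u.length, v.length) := by
  induction h with
  | refl => exact fun _ _ _ => ⟨rfl, Relation.ReflTransGen.refl⟩
  | @step u B v u' C v' h hr ih =>
    intro hC hmu hmv
    rw [Mt.append] at hmu
    rw [List.reverse_append, Mt.append] at hmv
    obtain ⟨x, y, hxy⟩ := hC
    obtain ⟨rfl, h1⟩ := ih ⟨_, _, (Derives.single hr).trans hxy⟩ hmu.1 hmv.1
    have hCB := hA u' C v' hr ⟨x, y, hxy⟩
    subst hCB
    refine ⟨rfl, h1.tail ⟨u', v', hr, ?_, hmu.2, ?_⟩⟩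
    · simp [add_comm]
    · simpa using hmv.2

theorem derives_of_loop {A : G.N} {cL cR : ℕ → Option α} {c : ℕ × ℕ}
    (h : Relation.ReflTransGen (LStep G A cL cR) (0, 0) c) :
    ∃ u v, G.Derives A u A v ∧ u.length = c.1 ∧ v.length = c.2 ∧ Mt cL u ∧
      Mt cR v.reverse := by
  induction h with
  | refl => exact ⟨[], [], .refl, rfl, rfl, Mt.nil, Mt.nil⟩
  | tail _ hs ih =>
    obtain ⟨u, v, h1, h2, h3, h4, h5⟩ := ih
    obtain ⟨u', v', hr, rfl, h6, h7⟩ := hs
    refine ⟨u ++ u', v' ++ v, Derives.step h1 hr, by simp [h2], by simp [h3, add_comm], ?_, ?_⟩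
    · rw [Mt.append]
      exact ⟨h4, by rw [h2]; exact h6⟩
    · rw [List.reverse_append, Mt.append]
      exact ⟨h5, by rw [List.length_reverse, h3]; exact h7⟩

theorem pairD_iff_loop {A : G.N}
    (hA : ∀ u B v, (A, u, B, v) ∈ G.rules → (∃ x y, G.Derives B x A y) → B = A)
    {a b : ℕ} {cL cR : ℕ → Option α} :
    G.PairD A A a b cL cR ↔ Relation.ReflTransGen (LStep G A cL cR) (0, 0) (a, b) := by
  constructor
  · rintro ⟨u, v, h, rfl, rfl, h3, h4⟩
    exact (loop_of_derives hA h ⟨[], [], .refl⟩ h3 h4).2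
  · intro h
    obtain ⟨u, v, h1, h2, h3, h4, h5⟩ := derives_of_loop h
    exact ⟨u, v, h1, h2, h3, h4, h5⟩

/-- A step in a grid graph. -/
inductive GStep (E S : ℕ → ℕ → Prop) : ℕ × ℕ → ℕ × ℕ → Prop
  | east {i j : ℕ} : E i j → GStep E S (i, j) (i, j + 1)
  | south {i j : ℕ} : S i j → GStep E S (i, j) (i + 1, j)

/-- A step in a grid graph with diagonals. -/
inductive GStep3 (E S T : ℕ → ℕ → Prop) : ℕ × ℕ → ℕ × ℕ → Prop
  | east {i j : ℕ} : E i j → GStep3 E S T (i, j) (i, j + 1)
  | south {i j : ℕ} : S i j → GStep3 E S T (i, j) (i + 1, j)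
  | diag {i j : ℕ} : T i j → GStep3 E S T (i, j) (i + 1, j + 1)

variable (G) in
/-- A rule `A → u A v` with `(|u|, |v|) = σ` is applicable after `i` rules of shape `s` and `j`
rules of shape `t`. -/
def Ed (A : G.N) (cL cR : ℕ → Option α) (s t σ : ℕ × ℕ) (i j : ℕ) : Prop :=
  ∃ r ∈ G.rules, (r.1 = A ∧ r.2.2.1 = A ∧ r.2.1.length = σ.1 ∧ r.2.2.2.length = σ.2) ∧
    Mt (fun k => cL (i * s.1 + j * t.1 + k)) r.2.1 ∧
    Mt (fun k => cR (i * s.2 + j * t.2 + k)) r.2.2.2.reverse

theorem grid_to_loop {A : G.N} {s t : ℕ × ℕ} {cL cR : ℕ → Option α} {d : ℕ × ℕ}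
    (hd : Relation.ReflTransGen (GStep3 (Ed G A cL cR s t t) (Ed G A cL cR s t s)
      (Ed G A cL cR s t (s + t))) (0, 0) d) :
    Relation.ReflTransGen (LStep G A cL cR) (0, 0)
      (d.1 * s.1 + d.2 * t.1, d.1 * s.2 + d.2 * t.2) := by
  induction hd with
  | refl => simpa using Relation.ReflTransGen.refl
  | tail _ hst ih =>
    refine ih.tail ?_
    cases hst with
    | east h =>
      obtain ⟨⟨A1, u, A2, v⟩, hr, ⟨e1, e2, e3, e4⟩, e5, e6⟩ := h
      simp only at e1 e2 e3 e4 e5 e6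
      subst e1
      subst e2
      refine ⟨u, v, hr, ?_, e5, e6⟩
      simp only [Prod.mk.injEq]
      rw [e3, e4]
      constructor <;> ring
    | south h =>
      obtain ⟨⟨A1, u, A2, v⟩, hr, ⟨e1, e2, e3, e4⟩, e5, e6⟩ := h
      simp only at e1 e2 e3 e4 e5 e6
      subst e1
      subst e2
      refine ⟨u, v, hr, ?_, e5, e6⟩
      simp only [Prod.mk.injEq]
      rw [e3, e4]
      constructor <;> ring
    | diag h =>
      obtain ⟨⟨A1, u, A2, v⟩, hr, ⟨e1, e2, e3, e4⟩, e5, e6⟩ := h
      simp only [Prod.fst_add, Prod.snd_add] at e1 e2 e3 e4 e5 e6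
      subst e1
      subst e2
      refine ⟨u, v, hr, ?_, e5, e6⟩
      simp only [Prod.mk.injEq]
      rw [e3, e4]
      constructor <;> ring

theorem loop_iff_grid {A : G.N} {s t : ℕ × ℕ}
    (hA : ∀ u v, (A, u, A, v) ∈ G.rules →
      (u.length, v.length) = s ∨ (u.length, v.length) = t ∨ (u.length, v.length) = s + t)
    {cL cR : ℕ → Option α} {c : ℕ × ℕ} :
    Relation.ReflTransGen (LStep G A cL cR) (0, 0) c ↔
      ∃ I J, (I ≤ c.1 + c.2 ∧ J ≤ c.1 + c.2) ∧ I * s.1 + J * t.1 = c.1 ∧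
        I * s.2 + J * t.2 = c.2 ∧
        Relation.ReflTransGen (GStep3 (Ed G A cL cR s t t) (Ed G A cL cR s t s)
          (Ed G A cL cR s t (s + t))) (0, 0) (I, J) := by
  constructor
  · intro h
    induction h with
    | refl => exact ⟨0, 0, by simp, by simp, by simp, Relation.ReflTransGen.refl⟩
    | @tail c c' _ hs ih =>
      obtain ⟨I, J, h0, h1, h2, h3⟩ := ih
      obtain ⟨u, v, hr, rfl, h6, h7⟩ := hs
      by_cases h00 : u.length + v.length = 0
      · have hu : u.length = 0 := by omega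
        have hv : v.length = 0 := by omega
        rw [hu, hv]
        exact ⟨I, J, h0, h1, h2, h3⟩
      · rcases hA u v hr with hs | hs | hs
        · refine ⟨I + 1, J, by simp only; omega, ?_, ?_, h3.tail (GStep3.south ?_)⟩
          · rw [← hs]; simp only; rw [← h1, ← hs]; ring
          · rw [← hs]; simp only; rw [← h2, ← hs]; ring
          · refine ⟨_, hr, ⟨rfl, rfl, by rw [← hs], by rw [← hs]⟩, ?_, ?_⟩
            · rw [h1]; exact h6
            · rw [h2]; exact h7
        · refine ⟨I, J + 1, by simp only; omega, ?_, ?_, h3.tail (GStep3.east ?_)⟩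
          · rw [← hs]; simp only; rw [← h1, ← hs]; ring
          · rw [← hs]; simp only; rw [← h2, ← hs]; ring
          · refine ⟨_, hr, ⟨rfl, rfl, by rw [← hs], by rw [← hs]⟩, ?_, ?_⟩
            · rw [h1]; exact h6
            · rw [h2]; exact h7
        · have e1 : u.length = s.1 + t.1 := congrArg Prod.fst hs
          have e2 : v.length = s.2 + t.2 := congrArg Prod.snd hs
          refine ⟨I + 1, J + 1, by simp only; omega, ?_, ?_, h3.tail (GStep3.diag ?_)⟩
          · simp only; rw [← h1, e1]; ring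
          · simp only; rw [← h2, e2]; ring
          · refine ⟨_, hr, ⟨rfl, rfl, e1, e2⟩, ?_, ?_⟩
            · rw [h1]; exact h6
            · rw [h2]; exact h7
  · rintro ⟨I, J, _, h1, h2, h3⟩
    have : c = (I * s.1 + J * t.1, I * s.2 + J * t.2) := by rw [h1, h2]
    rw [this]
    exact grid_to_loop h3

/-- Edges to the east in the refined grid. -/
def E2 (E T : ℕ → ℕ → Prop) (i j : ℕ) : Prop :=
  (i % 2 = 0 ∧ j % 2 = 0 ∧ (E (i / 2) (j / 2) ∨ T (i / 2) (j / 2))) ∨
    (i % 2 = 0 ∧ j % 2 = 1 ∧ E (i / 2) (j / 2)) ∨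
    (i % 2 = 1 ∧ j % 2 = 1 ∧ T (i / 2) (j / 2))

/-- Edges to the south in the refined grid. -/
def S2 (S T : ℕ → ℕ → Prop) (i j : ℕ) : Prop :=
  (i % 2 = 0 ∧ j % 2 = 0 ∧ S (i / 2) (j / 2)) ∨
    (i % 2 = 0 ∧ j % 2 = 1 ∧ T (i / 2) (j / 2)) ∨
    (i % 2 = 1 ∧ j % 2 = 0 ∧ (S (i / 2) (j / 2) ∨ (1 ≤ j / 2 ∧ T (i / 2) (j / 2 - 1))))

section refine

variable {E S T : ℕ → ℕ → Prop}

/-- Invariant of the paths in the refined grid. -/
def RInv (E S T : ℕ → ℕ → Prop) (c : ℕ × ℕ) : Prop :=
  (∃ i j, c = (2 * i, 2 * j) ∧ Relation.ReflTransGen (GStep3 E S T) (0, 0) (i, j)) ∨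
  (∃ i j, c = (2 * i, 2 * j + 1) ∧ (E i j ∨ T i j) ∧
    Relation.ReflTransGen (GStep3 E S T) (0, 0) (i, j)) ∨
  (∃ i j, c = (2 * i + 1, 2 * j + 1) ∧ T i j ∧
    Relation.ReflTransGen (GStep3 E S T) (0, 0) (i, j)) ∨
  (∃ i j, c = (2 * i + 1, 2 * j) ∧ S i j ∧
    Relation.ReflTransGen (GStep3 E S T) (0, 0) (i, j)) ∨
  (∃ i j, c = (2 * i + 1, 2 * j + 2) ∧ T i j ∧
    Relation.ReflTransGen (GStep3 E S T) (0, 0) (i, j))

theorem rinv_of_reach {c : ℕ × ℕ}
    (h : Relation.ReflTransGen (GStep (E2 E T) (S2 S T)) (0, 0) c) : RInv E S T c := by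
  induction h with
  | refl => exact Or.inl ⟨0, 0, rfl, Relation.ReflTransGen.refl⟩
  | tail _ hs ih =>
    have div0 : ∀ m, 2 * m / 2 = m := fun m => by omega
    have div1 : ∀ m, (2 * m + 1) / 2 = m := fun m => by omega
    have mod0 : ∀ m, 2 * m % 2 = 0 := fun m => by omega
    have mod1 : ∀ m, (2 * m + 1) % 2 = 1 := fun m => by omega
    cases hs with
    | @east i' j' he =>
      unfold E2 at he
      rcases ih with ⟨i, j, hc, hr⟩ | ⟨i, j, hc, ht, hr⟩ | ⟨i, j, hc, ht, hr⟩ |
        ⟨i, j, hc, ht, hr⟩ | ⟨i, j, hc, ht, hr⟩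
      · obtain ⟨rfl, rfl⟩ := Prod.mk.inj hc
        simp only [div0, mod0, true_and, zero_ne_one, false_and, or_false] at he
        exact Or.inr (Or.inl ⟨i, j, rfl, he, hr⟩)
      · obtain ⟨rfl, rfl⟩ := Prod.mk.inj hc
        simp only [div0, div1, mod0, mod1, true_and, zero_ne_one, one_ne_zero, false_and,
          or_false, false_or] at he
        exact Or.inl ⟨i, j + 1, by rw [Prod.mk.injEq]; omega, hr.tail (GStep3.east he)⟩
      · obtain ⟨rfl, rfl⟩ := Prod.mk.inj hc
        exact Or.inr (Or.inr (Or.inr (Or.inr ⟨i, j, rfl, ht, hr⟩)))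
      · obtain ⟨rfl, rfl⟩ := Prod.mk.inj hc
        exfalso
        omega
      · obtain ⟨rfl, rfl⟩ := Prod.mk.inj hc
        exfalso
        omega
    | @south i' j' he =>
      unfold S2 at he
      rcases ih with ⟨i, j, hc, hr⟩ | ⟨i, j, hc, ht, hr⟩ | ⟨i, j, hc, ht, hr⟩ |
        ⟨i, j, hc, ht, hr⟩ | ⟨i, j, hc, ht, hr⟩
      · obtain ⟨rfl, rfl⟩ := Prod.mk.inj hc
        simp only [div0, mod0, true_and, zero_ne_one, false_and, or_false] at he
        exact Or.inr (Or.inr (Or.inr (Or.inl ⟨i, j, rfl, he, hr⟩)))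
      · obtain ⟨rfl, rfl⟩ := Prod.mk.inj hc
        simp only [div0, div1, mod0, mod1, true_and, zero_ne_one, one_ne_zero, false_and,
          or_false, false_or] at he
        exact Or.inr (Or.inr (Or.inl ⟨i, j, rfl, he, hr⟩))
      · obtain ⟨rfl, rfl⟩ := Prod.mk.inj hc
        exfalso
        omega
      · obtain ⟨rfl, rfl⟩ := Prod.mk.inj hc
        exact Or.inl ⟨i + 1, j, by rw [Prod.mk.injEq]; omega, hr.tail (GStep3.south ht)⟩
      · obtain ⟨rfl, rfl⟩ := Prod.mk.inj hc
        exact Or.inl ⟨i + 1, j + 1, by rw [Prod.mk.injEq]; omega, hr.tail (GStep3.diag ht)⟩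

theorem refine_iff {I J : ℕ} :
    Relation.ReflTransGen (GStep (E2 E T) (S2 S T)) (0, 0) (2 * I, 2 * J) ↔
      Relation.ReflTransGen (GStep3 E S T) (0, 0) (I, J) := by
  constructor
  · intro h
    rcases rinv_of_reach h with ⟨i, j, hc, hr⟩ | ⟨i, j, hc, ht, hr⟩ | ⟨i, j, hc, ht, hr⟩ |
        ⟨i, j, hc, ht, hr⟩ | ⟨i, j, hc, ht, hr⟩
    · rw [Prod.mk.injEq] at hc
      have h1 : I = i := by omega
      have h2 : J = j := by omega
      rw [h1, h2]
      exact hr
    all_goals
      exfalso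
      rw [Prod.mk.injEq] at hc
      omega
  · intro h
    suffices H : ∀ c : ℕ × ℕ, Relation.ReflTransGen (GStep3 E S T) (0, 0) c →
        Relation.ReflTransGen (GStep (E2 E T) (S2 S T)) (0, 0) (2 * c.1, 2 * c.2) from H _ h
    intro c hc
    have e00 : ∀ i j, E i j ∨ T i j → GStep (E2 E T) (S2 S T) (2 * i, 2 * j)
        (2 * i, 2 * j + 1) := fun i j h => GStep.east (Or.inl ⟨by omega, by omega, by
      rwa [show 2 * i / 2 = i by omega, show 2 * j / 2 = j by omega]⟩)
    induction hc with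
    | refl => exact Relation.ReflTransGen.refl
    | tail _ hs ih =>
      cases hs with
      | @east i j he =>
        refine (ih.tail (e00 i j (Or.inl he))).tail (GStep.east (Or.inr (Or.inl ⟨by omega,
          by omega, ?_⟩)))
        rwa [show 2 * i / 2 = i by omega, show (2 * j + 1) / 2 = j by omega]
      | @south i j he =>
        refine (ih.tail (GStep.south (Or.inl ⟨by omega, by omega, ?_⟩))).tail
          (GStep.south (Or.inr (Or.inr ⟨by omega, by omega, Or.inl ?_⟩)))
        · rwa [show 2 * i / 2 = i by omega, show 2 * j / 2 = j by omega]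
        · rwa [show (2 * i + 1) / 2 = i by omega, show 2 * j / 2 = j by omega]
      | @diag i j he =>
        refine (((ih.tail (e00 i j (Or.inr he))).tail (GStep.south (Or.inr (Or.inl ⟨by omega,
          by omega, ?_⟩)))).tail (GStep.east (Or.inr (Or.inr ⟨by omega, by omega, ?_⟩)))).tail
          (GStep.south (Or.inr (Or.inr ⟨by omega, by omega, Or.inr ⟨by omega, ?_⟩⟩)))
        · rwa [show 2 * i / 2 = i by omega, show (2 * j + 1) / 2 = j by omega]
        · rwa [show (2 * i + 1) / 2 = i by omega, show (2 * j + 1) / 2 = j by omega]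
        · rwa [show (2 * i + 1) / 2 = i by omega, show (2 * j + 1 + 1) / 2 - 1 = j by omega]

end refine

end loops

section word

/-- The word describing a grid graph. -/
noncomputable def gridWord (n : ℕ) (E S : ℕ → ℕ → Prop) (I J : ℕ) :
    List (Bool × Bool × Bool) :=
  (List.range (n * n)).map fun m =>
    (decide (E (m / n) (m % n)), decide (S (m / n) (m % n)), decide (m / n = I ∧ m % n = J))

variable {n : ℕ} {E S : ℕ → ℕ → Prop} {I J : ℕ}

theorem gridWord_length : (gridWord n E S I J).length = n * n := by simp [gridWord]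

theorem gridWord_get {m : ℕ} : (gridWord n E S I J)[m]? = if m < n * n then
    some (decide (E (m / n) (m % n)), decide (S (m / n) (m % n)),
      decide (m / n = I ∧ m % n = J)) else none := by
  unfold gridWord
  rw [List.getElem?_map]
  split_ifs with h
  · rw [List.getElem?_range h]; rfl
  · rw [List.getElem?_eq_none (by simpa using h)]; rfl

theorem gridWord_get' {i j : ℕ} (hi : i < n) (hj : j < n) :
    (gridWord n E S I J)[i * n + j]? =
      some (decide (E i j), decide (S i j), decide (i = I ∧ j = J)) := by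
  have h1 : i * n + j < n * n := by nlinarith
  have h2 : (i * n + j) / n = i := by
    rw [add_comm, Nat.add_mul_div_right _ _ (by omega), Nat.div_eq_of_lt hj, zero_add]
  have h3 : (i * n + j) % n = j := by
    rw [add_comm, Nat.add_mul_mod_self_right, Nat.mod_eq_of_lt hj]
  rw [gridWord_get, if_pos h1, h2, h3]

theorem gridWord_mem (hI : I < n) (hJ : J < n) : gridWord n E S I J ∈ LGGR ↔
    Relation.ReflTransGen (GStep E S) (0, 0) (I, J) := by
  constructor
  · rintro ⟨n', i, j, hn, hi, hj, ⟨b, c, hb⟩, hp⟩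
    rw [gridWord_length] at hn
    have : n' = n := (Nat.mul_self_inj.1 hn).symm
    subst this
    rw [gridWord_get' hi hj] at hb
    simp only [Option.some.injEq, Prod.mk.injEq, decide_eq_true_eq] at hb
    obtain ⟨_, _, rfl, rfl⟩ := hb
    refine rtg_mono (fun c c' h => ?_) hp
    cases h with
    | east h1 h2 h3 =>
      rw [gridWord_get' h1 (by omega)] at h3
      simp only [Option.some.injEq, Prod.mk.injEq, decide_eq_true_eq] at h3
      exact GStep.east h3.1
    | south h1 h2 h3 =>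
      rw [gridWord_get' (by omega) h2] at h3
      simp only [Option.some.injEq, Prod.mk.injEq, decide_eq_true_eq] at h3
      exact GStep.south h3.2.1
  · intro h
    refine ⟨n, I, J, gridWord_length, hI, hJ, ⟨decide (E I J), decide (S I J), ?_⟩, ?_⟩
    · rw [gridWord_get' hI hJ]; simp
    · suffices H : ∀ c : ℕ × ℕ, Relation.ReflTransGen (GStep E S) (0, 0) c → c.1 < n →
          c.2 < n → Relation.ReflTransGen (GridStep n (gridWord n E S I J)) (0, 0) c from
        H _ h hI hJ
      intro c hc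
      induction hc with
      | refl => exact fun _ _ => Relation.ReflTransGen.refl
      | tail _ hs ih =>
        intro h1 h2
        cases hs with
        | @east i j he =>
          simp only at h1 h2
          exact (ih h1 (by simp only; omega)).tail (GridStep.east h1 h2 (by
            rw [gridWord_get' h1 (by omega), decide_eq_true he]))
        | @south i j he =>
          simp only at h1 h2
          exact (ih (by simp only; omega) h2).tail (GridStep.south h1 h2 (by
            rw [gridWord_get' (by omega) h2, decide_eq_true he]))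

end word

section FP

variable {X Y : Type} [Cod X] [Cod Y] [Finite α] {G : LinearGrammar α}

theorem FP.decide_eq {P : List α → Y → Prop} [∀ w y, Decidable (P w y)] (hP : FP P) (b : Bool) :
    FP fun w y => (decide (P w y)) = b := by
  cases b with
  | true => exact hP.congr fun w y => by simp
  | false => exact hP.not.congr fun w y => by simp

theorem FP.ed {A : G.N} {s t σ : ℕ × ℕ} {posL posR : List α → X × ℕ → ℕ} (hL : Fn posL)
    (hR : Fn posR) {px : List α → Y → X} (hpx : Fn px) {i j : List α → Y → ℕ} (hi : Fn i)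
    (hj : Fn j) : FP fun w y => Ed G A (rd posL w (px w y)) (rd posR w (px w y)) s t σ
      (i w y) (j w y) := by
  unfold Ed
  refine FP.bexF _ fun r hr => (FP.constP _).and ?_
  have hLy : Fn fun (w : List α) (z : Y × ℕ) => posL w (px w z.1, z.2) :=
    hL.comp ((hpx.comp Fn.id.fst).pair Fn.id.snd)
  have hRy : Fn fun (w : List α) (z : Y × ℕ) => posR w (px w z.1, z.2) :=
    hR.comp ((hpx.comp Fn.id.fst).pair Fn.id.snd)
  exact (FP.mt hLy ((hi.mul (Fn.const _)).add (hj.mul (Fn.const _))) r.2.1).and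
    (FP.mt hRy ((hi.mul (Fn.const _)).add (hj.mul (Fn.const _))) r.2.2.2.reverse)

theorem loopsInL_of_lggr (hL : InL LGGR) (hG : PlanarShapes G) (A : G.N) : LoopsInL G A := by
  obtain ⟨s, t, hst⟩ := hG A
  intro X _ posL posR a b hpL hpR ha hb
  have hn : Fn fun w x => 2 * (a w x + b w x + 1) := (Fn.const 2).mul (ha.add hb).succ
  -- the calls of the oracle, parameters `((x, I), J)`
  have horacle : FP fun w (z : (X × ℕ) × ℕ) => gridWord (2 * (a w z.1.1 + b w z.1.1 + 1))
      (E2 (Ed G A (rd posL w z.1.1) (rd posR w z.1.1) s t t)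
        (Ed G A (rd posL w z.1.1) (rd posR w z.1.1) s t (s + t)))
      (S2 (Ed G A (rd posL w z.1.1) (rd posR w z.1.1) s t s)
        (Ed G A (rd posL w z.1.1) (rd posR w z.1.1) s t (s + t)))
      (2 * z.1.2) (2 * z.2) ∈ LGGR := by
    refine FP.inL_comp hL ?_ ?_
    · simp only [gridWord_length]
      have := hn.comp (g := fun w (z : (X × ℕ) × ℕ) => z.1.1) Fn.id.fst.fst
      exact this.mul this
    · rintro ⟨b1, b2, b3⟩
      have hx : Fn fun (w : List α) (z : ((X × ℕ) × ℕ) × ℕ) => z.1.1.1 := Fn.id.fst.fst.fst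
      have hN : Fn fun w (z : ((X × ℕ) × ℕ) × ℕ) => 2 * (a w z.1.1.1 + b w z.1.1.1 + 1) :=
        hn.comp hx
      have hm : Fn fun (w : List α) (z : ((X × ℕ) × ℕ) × ℕ) => z.2 := Fn.id.snd
      have hI : Fn fun (w : List α) (z : ((X × ℕ) × ℕ) × ℕ) => z.1.1.2 := Fn.id.fst.fst.snd
      have hJ : Fn fun (w : List α) (z : ((X × ℕ) × ℕ) × ℕ) => z.1.2 := Fn.id.fst.snd
      have hi := hm.div hN
      have hj := hm.mod hN
      have two : Fn fun (w : List α) (z : ((X × ℕ) × ℕ) × ℕ) => 2 := Fn.const 2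
      have hEd : ∀ σ, ∀ {i j : List α → ((X × ℕ) × ℕ) × ℕ → ℕ}, Fn i → Fn j →
          FP fun w z => Ed G A (rd posL w z.1.1.1) (rd posR w z.1.1.1) s t σ (i w z) (j w z) :=
        fun σ _ _ h1 h2 => FP.ed (s := s) (t := t) (σ := σ) (A := A) hpL hpR hx h1 h2
      have i0 := FP.eq (hi.mod two) (Fn.const 0)
      have i1 := FP.eq (hi.mod two) (Fn.const 1)
      have j0 := FP.eq (hj.mod two) (Fn.const 0)
      have j1 := FP.eq (hj.mod two) (Fn.const 1)
      have hi2 := hi.div two
      have hj2 := hj.div two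
      have hE2 : FP fun w (z : ((X × ℕ) × ℕ) × ℕ) => E2 (Ed G A (rd posL w z.1.1.1)
          (rd posR w z.1.1.1) s t t) (Ed G A (rd posL w z.1.1.1) (rd posR w z.1.1.1) s t (s + t))
          (z.2 / (2 * (a w z.1.1.1 + b w z.1.1.1 + 1)))
          (z.2 % (2 * (a w z.1.1.1 + b w z.1.1.1 + 1))) := (i0.and (j0.and ((hEd t hi2 hj2).or (hEd (s + t) hi2 hj2)))).or
        ((i0.and (j1.and (hEd t hi2 hj2))).or (i1.and (j1.and (hEd (s + t) hi2 hj2))))
      have hS2 : FP fun w (z : ((X × ℕ) × ℕ) × ℕ) => S2 (Ed G A (rd posL w z.1.1.1)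
          (rd posR w z.1.1.1) s t s) (Ed G A (rd posL w z.1.1.1) (rd posR w z.1.1.1) s t (s + t))
          (z.2 / (2 * (a w z.1.1.1 + b w z.1.1.1 + 1)))
          (z.2 % (2 * (a w z.1.1.1 + b w z.1.1.1 + 1))) := (i0.and (j0.and (hEd s hi2 hj2))).or
        ((i0.and (j1.and (hEd (s + t) hi2 hj2))).or (i1.and (j0.and ((hEd s hi2 hj2).or
          ((FP.le (Fn.const 1) hj2).and (hEd (s + t) hi2 (hj2.sub (Fn.const 1))))))))
      refine ((FP.lt hm (hN.mul hN)).and ((FP.decide_eq hE2 b1).and ((FP.decide_eq hS2 b2).and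
        (FP.decide_eq ((FP.eq hi ((Fn.const 2).mul hI)).and (FP.eq hj ((Fn.const 2).mul hJ)))
          b3)))).congr fun w z => ?_
      rw [gridWord_get]
      split_ifs with h
      · simp only [Option.some.injEq, Prod.mk.injEq, h, true_and]
      · simp [h]
  refine FP.congr (P := fun w x => ∃ I < a w x + b w x + 1, ∃ J < a w x + b w x + 1,
    (I * s.1 + J * t.1 = a w x ∧ I * s.2 + J * t.2 = b w x) ∧
    gridWord (2 * (a w x + b w x + 1))
      (E2 (Ed G A (rd posL w x) (rd posR w x) s t t)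
        (Ed G A (rd posL w x) (rd posR w x) s t (s + t)))
      (S2 (Ed G A (rd posL w x) (rd posR w x) s t s)
        (Ed G A (rd posL w x) (rd posR w x) s t (s + t))) (2 * I) (2 * J) ∈ LGGR) ?_
        fun w x => ?_
  · refine FP.bex (b := fun w x => a w x + b w x + 1) (ha.add hb).succ
      (P := fun w (z : X × ℕ) => ∃ J < a w z.1 + b w z.1 + 1,
      (z.2 * s.1 + J * t.1 = a w z.1 ∧ z.2 * s.2 + J * t.2 = b w z.1) ∧
      gridWord (2 * (a w z.1 + b w z.1 + 1))
        (E2 (Ed G A (rd posL w z.1) (rd posR w z.1) s t t)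
          (Ed G A (rd posL w z.1) (rd posR w z.1) s t (s + t)))
        (S2 (Ed G A (rd posL w z.1) (rd posR w z.1) s t s)
          (Ed G A (rd posL w z.1) (rd posR w z.1) s t (s + t))) (2 * z.2) (2 * J) ∈ LGGR) ?_
    refine FP.bex (b := fun w (z : X × ℕ) => a w z.1 + b w z.1 + 1)
      ((ha.add hb).succ.comp Fn.id.fst)
      (P := fun w (z : (X × ℕ) × ℕ) =>
      (z.1.2 * s.1 + z.2 * t.1 = a w z.1.1 ∧ z.1.2 * s.2 + z.2 * t.2 = b w z.1.1) ∧
      gridWord (2 * (a w z.1.1 + b w z.1.1 + 1))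
        (E2 (Ed G A (rd posL w z.1.1) (rd posR w z.1.1) s t t)
          (Ed G A (rd posL w z.1.1) (rd posR w z.1.1) s t (s + t)))
        (S2 (Ed G A (rd posL w z.1.1) (rd posR w z.1.1) s t s)
          (Ed G A (rd posL w z.1.1) (rd posR w z.1.1) s t (s + t)))
        (2 * z.1.2) (2 * z.2) ∈ LGGR) ?_
    have hI : Fn fun (w : List α) (z : (X × ℕ) × ℕ) => z.1.2 := Fn.id.fst.snd
    have hJ : Fn fun (w : List α) (z : (X × ℕ) × ℕ) => z.2 := Fn.id.snd
    refine ((FP.eq ((hI.mul (Fn.const _)).add (hJ.mul (Fn.const _)))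
      (ha.comp Fn.id.fst.fst)).and (FP.eq ((hI.mul (Fn.const _)).add (hJ.mul (Fn.const _)))
      (hb.comp Fn.id.fst.fst))).and horacle
  · rw [pairD_iff_loop fun u B v h1 h2 => (hst u B v h1 h2).1, loop_iff_grid (s := s) (t := t)
      fun u v h => (hst u A v h ⟨[], [], .refl⟩).2]
    constructor
    · rintro ⟨I, J, h0, h1, h2, h3⟩
      simp only at h0
      refine ⟨I, by omega, J, by omega, ⟨h1, h2⟩, (gridWord_mem (by omega) (by omega)).2 ?_⟩
      exact refine_iff.2 h3
    · rintro ⟨I, hI, J, hJ, ⟨h1, h2⟩, h3⟩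
      rw [gridWord_mem (by omega) (by omega), refine_iff] at h3
      exact ⟨I, J, ⟨by simp only; omega, by simp only; omega⟩, h1, h2, h3⟩

end FP

end Pool.Agent.Helper38.LinTwo
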