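import Pool.Agent.Helper38.LinTwo.Easy

/-!
# Layered grid graph reachability reduces to the grammar with four recursive rules
-/

namespace Pool.Agent.Helper38.LinTwo

open Classical Pool.Agent.Helper38.LinL Pool.Agent.Helper38.LinL.LinearGrammar

set_option linter.unusedSimpArgs false
set_option linter.unusedVariables false
set_option linter.unusedSectionVars false

section g4

theorem mt_one {α : Type} {c : ℕ → Option α} {x : α} : Mt c [x] ↔ c 0 = some x := by
  constructor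
  · intro h; exact h 0 (by simp)
  · intro h s hs
    simp only [List.length_singleton, Nat.lt_one_iff] at hs
    subst hs
    simpa using h

theorem mt_two {α : Type} {c : ℕ → Option α} {x y : α} :
    Mt c [x, y] ↔ c 0 = some x ∧ c 1 = some y := by
  constructor
  · intro h; exact ⟨h 0 (by simp), h 1 (by simp)⟩
  · rintro ⟨h0, h1⟩ s hs
    simp only [List.length_cons, List.length_nil] at hs
    have : s = 0 ∨ s = 1 := by omega
    rcases this with rfl | rfl
    · simpa using h0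
    · simpa using h1

theorem mem_rules {u v : List Let} : (G4.start, u, G4.start, v) ∈ G4.rules ↔
    (u = [Let.a] ∧ v = [Let.zero]) ∨ (u = [Let.a] ∧ v = [Let.one]) ∨
      (u = [Let.b] ∧ v = [Let.zero]) ∨ (u = [Let.b] ∧ v = [Let.zero, Let.zero]) := by
  change (((), u, (), v) : Unit × List Let × Unit × List Let) ∈
    ({((), [Let.a], (), [Let.zero]), ((), [Let.a], (), [Let.one]),
      ((), [Let.b], (), [Let.zero]), ((), [Let.b], (), [Let.zero, Let.zero])} :
      Finset (Unit × List Let × Unit × List Let)) ↔ _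
  simp only [Finset.mem_insert, Finset.mem_singleton, Prod.mk.injEq, true_and]

theorem mem_term {B : G4.N} {t : List Let} : (B, t) ∈ G4.term ↔ t = [Let.c] := by
  change ((B, t) : Unit × List Let) ∈ ({((), [Let.c])} : Finset (Unit × List Let)) ↔ _
  simp only [Finset.mem_singleton, Prod.mk.injEq]
  exact ⟨fun h => h.2, fun h => ⟨rfl, h⟩⟩

theorem lstep_G4 {cL cR : ℕ → Option Let} {c c' : ℕ × ℕ} :
    LStep G4 G4.start cL cR c c' ↔ c'.1 = c.1 + 1 ∧
      ((cL c.1 = some Let.a ∧ (cR c.2 = some Let.zero ∨ cR c.2 = some Let.one) ∧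
        c'.2 = c.2 + 1) ∨
      (cL c.1 = some Let.b ∧ cR c.2 = some Let.zero ∧ c'.2 = c.2 + 1) ∨
      (cL c.1 = some Let.b ∧ cR c.2 = some Let.zero ∧ cR (c.2 + 1) = some Let.zero ∧
        c'.2 = c.2 + 2)) := by
  obtain ⟨p, q⟩ := c
  obtain ⟨p', q'⟩ := c'
  constructor
  · rintro ⟨u, v, hr, hc, h1, h2⟩
    have hr' := mem_rules.1 hr
    simp only [Prod.mk.injEq] at hc
    rcases hr' with ⟨rfl, rfl⟩ | ⟨rfl, rfl⟩ | ⟨rfl, rfl⟩ | ⟨rfl, rfl⟩
    · simp only [List.reverse_singleton, mt_one] at h1 h2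
      simp at hc h1 h2 ⊢
      exact ⟨hc.1, Or.inl ⟨h1, Or.inl h2, hc.2⟩⟩
    · simp only [List.reverse_singleton, mt_one] at h1 h2
      simp at hc h1 h2 ⊢
      exact ⟨hc.1, Or.inl ⟨h1, Or.inr h2, hc.2⟩⟩
    · simp only [List.reverse_singleton, mt_one] at h1 h2
      simp at hc h1 h2 ⊢
      exact ⟨hc.1, Or.inr (Or.inl ⟨h1, h2, hc.2⟩)⟩
    · have : [Let.zero, Let.zero].reverse = [Let.zero, Let.zero] := rfl
      rw [this] at h2
      simp only [mt_one, mt_two] at h1 h2
      simp at hc h1 h2 ⊢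
      exact ⟨hc.1, Or.inr (Or.inr ⟨h1, h2.1, h2.2, hc.2⟩)⟩
  · rintro ⟨hp, h⟩
    simp only at hp h
    subst hp
    rcases h with ⟨h1, h2 | h2, rfl⟩ | ⟨h1, h2, rfl⟩ | ⟨h1, h2, h3, rfl⟩
    · exact ⟨[Let.a], [Let.zero], mem_rules.2 (by simp), rfl, mt_one.2 (by simpa using h1),
        mt_one.2 (by simpa using h2)⟩
    · exact ⟨[Let.a], [Let.one], mem_rules.2 (by simp), rfl, mt_one.2 (by simpa using h1),
        mt_one.2 (by simpa using h2)⟩
    · exact ⟨[Let.b], [Let.zero], mem_rules.2 (by simp), rfl, mt_one.2 (by simpa using h1),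
        mt_one.2 (by simpa using h2)⟩
    · exact ⟨[Let.b], [Let.zero, Let.zero], mem_rules.2 (by simp), rfl, mt_one.2 (by simpa using h1),
        mt_two.2 ⟨by simpa using h2, by simpa using h3⟩⟩

end g4

section hw

/-- The word of the reduction. -/
noncomputable def hw (K D Y : ℕ) (Z : ℕ → Prop) : List Let :=
  (List.range (K * D + 1 + Y)).map fun m =>
    if m < K * D then (if m % D = 0 then Let.b else Let.a) else
      if m = K * D then Let.c else
        if Z (K * D + Y - m) then Let.zero else Let.one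

variable {K D Y : ℕ} {Z : ℕ → Prop}

theorem hw_length : (hw K D Y Z).length = K * D + 1 + Y := by simp [hw]

theorem hw_get {m : ℕ} : (hw K D Y Z)[m]? = if m < K * D + 1 + Y then
    some (if m < K * D then (if m % D = 0 then Let.b else Let.a) else
      if m = K * D then Let.c else
        if Z (K * D + Y - m) then Let.zero else Let.one) else none := by
  unfold hw
  rw [List.getElem?_map]
  split_ifs with h
  all_goals first
    | (rw [List.getElem?_range h]; simp_all)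
    | (rw [List.getElem?_eq_none (by simpa using h)]; rfl)

theorem hw_left {m : ℕ} (h : m < K * D) :
    (hw K D Y Z)[m]? = some (if m % D = 0 then Let.b else Let.a) := by
  rw [hw_get, if_pos (by omega), if_pos h]

theorem hw_mid {m : ℕ} : (hw K D Y Z)[m]? = some Let.c ↔ m = K * D := by
  rw [hw_get]
  constructor
  · intro h
    split_ifs at h <;> simp_all
  · rintro rfl
    rw [if_pos (by omega), if_neg (by omega), if_pos rfl]

theorem hw_right {q : ℕ} (h : q < Y) :
    (hw K D Y Z)[K * D + Y - q]? = some (if Z q then Let.zero else Let.one) := by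
  rw [hw_get, if_pos (by omega), if_neg (by omega), if_neg (by omega)]
  rw [show K * D + Y - (K * D + Y - q) = q by omega]

theorem hw_right' {q : ℕ} (h : Y ≤ q) : (hw K D Y Z)[K * D + Y - q]? ≠ some Let.zero ∧
    (hw K D Y Z)[K * D + Y - q]? ≠ some Let.one := by
  rw [hw_get, if_pos (by omega)]
  constructor <;>
  · intro h1
    split_ifs at h1 <;> simp_all
    all_goals omega

theorem hw_mem : hw K D Y Z ∈ G4.language ↔
    Relation.ReflTransGen (LStep G4 G4.start (fun t => (hw K D Y Z)[t]?)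
      (fun t => (hw K D Y Z)[K * D + Y - t]?)) (0, 0) (K * D, Y) := by
  have hA : ∀ u B v, (G4.start, u, B, v) ∈ G4.rules → (∃ x y, G4.Derives B x G4.start y) →
      B = G4.start := fun u B v _ _ => rfl
  rw [← pairD_iff_loop hA]
  set w := hw K D Y Z with hw'
  have hwl : w.length = K * D + 1 + Y := hw_length
  have hs : Spn w 0 w.length w := ⟨by simp, le_rfl, fun s hs => by simp⟩
  constructor
  · rintro ⟨u, B, v, t, h1, h2, h3⟩
    have ht : t = [Let.c] := mem_term.1 h2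
    subst ht
    have hu : u.length = K * D := by
      have h4 : w[u.length]? = some Let.c := by
        rw [h3, List.append_assoc, List.getElem?_append_right le_rfl]
        simp
      exact hw_mid.1 h4
    have hl := congrArg List.length h3
    simp only [List.length_append, List.length_singleton, hwl] at hl
    have hv : v.length = Y := by omega
    rw [show Spn w 0 w.length w ↔ Spn w 0 w.length (u ++ [Let.c] ++ v) by rw [← h3],
      spn_append, spn_append] at hs
    refine ⟨u, v, h1, hu, hv, ?_, ?_⟩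
    · simpa using hs.1.1.2.2
    · have h5 := hs.2
      simp only [List.length_append, List.length_singleton, zero_add, hu, hwl] at h5
      have h6 := (spn_reverse (w := w) (i := K * D + 1) (j := K * D + 1 + Y) (v := v)
        (by omega) (by omega)).2 h5
      convert h6 using 3 with t
      congr 1
      omega
  · rintro ⟨u, v, h1, hu, hv, h3, h4⟩
    refine ⟨u, G4.start, v, [Let.c], h1, mem_term.2 rfl, ?_⟩
    have h5 : Spn w (K * D + 1) (K * D + 1 + Y) v := by
      rw [← spn_reverse (by omega) (by omega)]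
      convert h4 using 3 with t
      congr 1
      omega
    have h6 : Spn w 0 (K * D + 1 + Y) (u ++ [Let.c] ++ v) := by
      rw [spn_append, spn_append]
      simp only [List.length_append, List.length_singleton, zero_add, hu]
      refine ⟨⟨⟨by omega, by omega, by simpa using h3⟩, rfl, by omega, mt_one.2 ?_⟩, h5⟩
      exact hw_mid.2 rfl
    refine Mt.inj hs.2.2 h6.2.2 ?_
    have := h6.1
    omega

/-- Positions reachable after reading `p` letters on the left. -/
def Rn (D : ℕ) (Z : ℕ → Prop) : ℕ → ℕ → Prop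
  | 0 => fun q => q = 0
  | p + 1 => fun q' => ∃ q, Rn D Z p q ∧ if p % D = 0 then
      ((Z q ∧ q' = q + 1) ∨ (Z q ∧ Z (q + 1) ∧ q' = q + 2)) else q' = q + 1

theorem rn_iff (p : ℕ) (hp : p ≤ K * D) : ∀ q, Relation.ReflTransGen (LStep G4 G4.start
      (fun t => (hw K D Y Z)[t]?) (fun t => (hw K D Y Z)[K * D + Y - t]?)) (0, 0) (p, q) ↔
      (q ≤ Y ∧ Rn D Z p q) := by
  induction p with
  | zero =>
    intro q
    constructor
    · intro h
      rcases Relation.ReflTransGen.cases_tail h with h | ⟨c, _, h⟩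
      · simp only [Prod.mk.injEq, true_and] at h
        exact ⟨by omega, h⟩
      · rw [lstep_G4] at h
        have := h.1
        simp at this
    · rintro ⟨_, h⟩
      have : q = 0 := h
      subst this
      exact Relation.ReflTransGen.refl
  | succ p ih =>
    intro q'
    have hpl := hw_left (K := K) (D := D) (Y := Y) (Z := Z) (m := p) (by omega)
    constructor
    · intro hh
      rcases Relation.ReflTransGen.cases_tail hh with h | ⟨⟨p0, q⟩, h0, h⟩
      · simp at h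
      · rw [lstep_G4] at h
        obtain ⟨hp0, h⟩ := h
        simp only at hp0 h
        have : p0 = p := by omega
        subst this
        obtain ⟨hq, hR⟩ := (ih (by omega) q).1 h0
        have hqY : ∀ q, (hw K D Y Z)[K * D + Y - q]? = some Let.zero → q < Y ∧ Z q := by
          intro q h
          rcases Nat.lt_or_ge q Y with h1 | h1
          · refine ⟨h1, ?_⟩
            rw [hw_right h1] at h
            by_contra hZ
            simp [hZ] at h
          · exact absurd h (hw_right' h1).1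
        have hqY1 : ∀ q, (hw K D Y Z)[K * D + Y - q]? = some Let.one → q < Y := by
          intro q h
          rcases Nat.lt_or_ge q Y with h1 | h1
          · exact h1
          · exact absurd h (hw_right' h1).2
        rw [hpl] at h
        by_cases hD : p0 % D = 0
        · simp only [hD, if_true, Option.some.injEq, reduceCtorEq, false_and, false_or,
            true_and] at h
          rcases h with ⟨h1, rfl⟩ | ⟨h1, h2, rfl⟩
          · refine ⟨(hqY q h1).1, q, hR, ?_⟩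
            rw [if_pos hD]
            exact Or.inl ⟨(hqY q h1).2, rfl⟩
          · refine ⟨(hqY _ h2).1, q, hR, ?_⟩
            rw [if_pos hD]
            exact Or.inr ⟨(hqY q h1).2, (hqY _ h2).2, rfl⟩
        · simp only [hD, if_false, Option.some.injEq, reduceCtorEq, false_and, or_false,
            true_and] at h
          obtain ⟨h1, rfl⟩ := h
          refine ⟨?_, q, hR, ?_⟩
          · rcases h1 with h1 | h1
            · exact (hqY q h1).1
            · exact hqY1 q h1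
          · rw [if_neg hD]
    · rintro ⟨hY, q, hR, h⟩
      by_cases hD : p % D = 0
      · rw [if_pos hD] at h
        rcases h with ⟨hZ, rfl⟩ | ⟨hZ, hZ', rfl⟩
        · refine ((ih (by omega) q).2 ⟨by omega, hR⟩).tail (lstep_G4.2 ⟨rfl, ?_⟩)
          refine Or.inr (Or.inl ⟨?_, ?_, rfl⟩)
          · simp only [hpl, hD, if_true]
          · simp only [hw_right (show q < Y by omega), hZ, if_true]
        · refine ((ih (by omega) q).2 ⟨by omega, hR⟩).tail (lstep_G4.2 ⟨rfl, ?_⟩)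
          refine Or.inr (Or.inr ⟨?_, ?_, ?_, rfl⟩)
          · simp only [hpl, hD, if_true]
          · simp only [hw_right (show q < Y by omega), hZ, if_true]
          · simp only [hw_right (show q + 1 < Y by omega), hZ', if_true]
      · rw [if_neg hD] at h
        subst h
        refine ((ih (by omega) q).2 ⟨by omega, hR⟩).tail (lstep_G4.2 ⟨rfl, Or.inl ⟨?_, ?_, rfl⟩⟩)
        · simp only [hpl, hD, if_false]
        · simp only [hw_right (show q < Y by omega)]
          by_cases hZ : Z q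
          · simp [hZ]
          · simp [hZ]

/-- Positions reachable after `k` rounds. -/
def Rd (D : ℕ) (Z : ℕ → Prop) : ℕ → ℕ → Prop
  | 0 => fun q => q = 0
  | k + 1 => fun q' => ∃ q, Rd D Z k q ∧
      ((Z q ∧ q' = q + D) ∨ (Z q ∧ Z (q + 1) ∧ q' = q + D + 1))

theorem rn_block (k : ℕ) : ∀ i, i < D → ∀ q', Rn D Z (k * D + (i + 1)) q' ↔
    ∃ q, Rn D Z (k * D) q ∧ ((Z q ∧ q' = q + (i + 1)) ∨ (Z q ∧ Z (q + 1) ∧
      q' = q + (i + 1) + 1)) := by
  intro i
  induction i with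
  | zero =>
    intro hD q'
    show (∃ q, Rn D Z (k * D) q ∧ if k * D % D = 0 then _ else _) ↔ _
    simp only [Nat.mul_mod_left, if_true]
  | succ i ih =>
    intro hD q'
    have h1 : (k * D + (i + 1)) % D = i + 1 := by
      rw [add_comm, Nat.add_mul_mod_self_right, Nat.mod_eq_of_lt hD]
    show (∃ q, Rn D Z (k * D + (i + 1)) q ∧ if (k * D + (i + 1)) % D = 0 then _ else _) ↔ _
    rw [h1]
    simp only [Nat.add_one_ne_zero, if_false]
    constructor
    · rintro ⟨q, hq, rfl⟩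
      rw [ih (by omega)] at hq
      obtain ⟨q0, h2, h3⟩ := hq
      refine ⟨q0, h2, ?_⟩
      rcases h3 with ⟨h3, rfl⟩ | ⟨h3, h4, rfl⟩
      · exact Or.inl ⟨h3, by omega⟩
      · exact Or.inr ⟨h3, h4, by omega⟩
    · rintro ⟨q0, h2, h3⟩
      rcases h3 with ⟨h3, rfl⟩ | ⟨h3, h4, rfl⟩
      · exact ⟨q0 + (i + 1), (ih (by omega) _).2 ⟨q0, h2, Or.inl ⟨h3, rfl⟩⟩, by omega⟩
      · exact ⟨q0 + (i + 1) + 1, (ih (by omega) _).2 ⟨q0, h2, Or.inr ⟨h3, h4, rfl⟩⟩, by omega⟩

theorem rn_rd (hD : 0 < D) (k : ℕ) : ∀ q, Rn D Z (k * D) q ↔ Rd D Z k q := by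
  induction k with
  | zero =>
    intro q
    rw [zero_mul]
    exact Iff.rfl
  | succ k ih =>
    intro q'
    obtain ⟨i, rfl⟩ : ∃ i, D = i + 1 := ⟨D - 1, by omega⟩
    have := rn_block (D := i + 1) (Z := Z) k i (by omega) q'
    rw [show (k + 1) * (i + 1) = k * (i + 1) + (i + 1) by ring, this]
    constructor
    · rintro ⟨q, h1, h2⟩
      exact ⟨q, (ih q).1 h1, h2⟩
    · rintro ⟨q, h1, h2⟩
      exact ⟨q, (ih q).2 h1, h2⟩

/-- Offsets reachable after `k` rounds. -/
def RO (C : ℕ → ℕ → Prop) : ℕ → ℕ → Prop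
  | 0 => fun o => o = 0
  | k + 1 => fun o' => ∃ o, RO C k o ∧ ((C k o ∧ o' = o) ∨ (C k o ∧ C k (o + 1) ∧ o' = o + 1))

theorem rd_ro {C : ℕ → ℕ → Prop} (hb : ∀ k o, RO C k o → o + 1 < D) (k : ℕ) : ∀ q,
    Rd D (fun i => C (i / D) (i % D)) k q ↔ ∃ o, RO C k o ∧ q = k * D + o := by
  induction k with
  | zero =>
    intro q
    constructor
    · intro h
      exact ⟨0, rfl, by rw [show q = 0 from h]; simp⟩
    · rintro ⟨o, h1, h2⟩
      have h1' : o = 0 := h1
      subst h1'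
      show q = 0
      rw [h2]; simp
  | succ k ih =>
    intro q'
    have hC : ∀ o, o < D → ((fun i => C (i / D) (i % D)) (k * D + o) ↔ C k o) := by
      intro o ho
      simp only
      rw [show (k * D + o) / D = k by
          rw [add_comm, Nat.add_mul_div_right _ _ (by omega), Nat.div_eq_of_lt ho, zero_add],
        show (k * D + o) % D = o by
          rw [add_comm, Nat.add_mul_mod_self_right, Nat.mod_eq_of_lt ho]]
    constructor
    · rintro ⟨q, hq, h⟩
      obtain ⟨o, ho, rfl⟩ := (ih q).1 hq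
      have hbo := hb k o ho
      rw [hC o (by omega), show k * D + o + 1 = k * D + (o + 1) by ring, hC (o + 1) hbo] at h
      rcases h with ⟨h1, h2⟩ | ⟨h1, h2, h3⟩
      · exact ⟨o, ⟨o, ho, Or.inl ⟨h1, rfl⟩⟩, by rw [h2]; ring⟩
      · exact ⟨o + 1, ⟨o, ho, Or.inr ⟨h1, h2, rfl⟩⟩, by rw [h3]; ring⟩
    · rintro ⟨o', ⟨o, ho, h⟩, rfl⟩
      have hbo := hb k o ho
      refine ⟨k * D + o, (ih _).2 ⟨o, ho, rfl⟩, ?_⟩
      rw [hC o (by omega), show k * D + o + 1 = k * D + (o + 1) by ring, hC (o + 1) hbo]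
      rcases h with ⟨h1, rfl⟩ | ⟨h1, h2, rfl⟩
      · exact Or.inl ⟨h1, by ring⟩
      · exact Or.inr ⟨h1, h2, by ring⟩

end hw

section gadget

/-- The contents of the blocks: one time step of the grid graph takes five rounds. -/
def base (r off : ℕ) (e s : Prop) : Prop :=
  (r = 0 ∧ (off = 0 ∨ (off = 1 ∧ e))) ∨ (r = 1 ∧ ((off = 0 ∧ s) ∨ off = 1 ∨ off = 2)) ∨
    (r = 2 ∧ (off = 0 ∨ off = 2 ∨ off = 3)) ∨ (r = 3 ∧ (off = 0 ∨ off = 3)) ∨
    (r = 4 ∧ off = 0)

/-- The letter of the block number `k` at offset `o` is `0`. -/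
def CC (E S : ℕ → ℕ → Prop) (k o : ℕ) : Prop :=
  base (k % 5) (o % 4) (E (k / 5 - o / 4) (o / 4)) (S (k / 5 - o / 4) (o / 4))

variable {E S : ℕ → ℕ → Prop}

theorem CC_eval {t r s off : ℕ} (hr : r < 5) (ho : off < 4) :
    CC E S (5 * t + r) (4 * s + off) ↔ base r off (E (t - s) s) (S (t - s) s) := by
  unfold CC
  rw [show (5 * t + r) % 5 = r by omega, show (4 * s + off) % 4 = off by omega,
    show (5 * t + r) / 5 = t by omega, show (4 * s + off) / 4 = s by omega]

/-- One time step. -/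
theorem ro_five (t : ℕ) (h4 : ∀ o, RO (CC E S) (5 * t) o → ∃ s, o = 4 * s) :
    (∀ o, RO (CC E S) (5 * t + 1) o ↔ ∃ s, RO (CC E S) (5 * t) (4 * s) ∧
      (o = 4 * s ∨ (o = 4 * s + 1 ∧ E (t - s) s))) ∧
    (∀ o, RO (CC E S) (5 * t + 2) o ↔ ∃ s, RO (CC E S) (5 * t) (4 * s) ∧
      ((S (t - s) s ∧ (o = 4 * s ∨ o = 4 * s + 1)) ∨
        (E (t - s) s ∧ (o = 4 * s + 1 ∨ o = 4 * s + 2)))) ∧
    (∀ o, RO (CC E S) (5 * t + 3) o ↔ ∃ s, RO (CC E S) (5 * t) (4 * s) ∧
      ((S (t - s) s ∧ o = 4 * s) ∨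
        (E (t - s) s ∧ (o = 4 * s + 2 ∨ o = 4 * s + 3)))) ∧
    (∀ o, RO (CC E S) (5 * t + 4) o ↔ ∃ s, RO (CC E S) (5 * t) (4 * s) ∧
      ((S (t - s) s ∧ o = 4 * s) ∨
        (E (t - s) s ∧ (o = 4 * s + 3 ∨ o = 4 * s + 4)))) ∧
    (∀ o, RO (CC E S) (5 * t + 5) o ↔ ∃ s, RO (CC E S) (5 * t) (4 * s) ∧
      ((S (t - s) s ∧ o = 4 * s) ∨ (E (t - s) s ∧ o = 4 * s + 4))) := by
  have c : ∀ r, r < 5 → ∀ s off, off < 4 → (CC E S (5 * t + r) (4 * s + off) ↔
      base r off (E (t - s) s) (S (t - s) s)) := fun r hr s off ho => CC_eval hr ho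
  have c0 : ∀ r, r < 5 → ∀ s, (CC E S (5 * t + r) (4 * s) ↔
      base r 0 (E (t - s) s) (S (t - s) s)) := fun r hr s => c r hr s 0 (by omega)
  have c4 : ∀ r, r < 5 → ∀ s, (CC E S (5 * t + r) (4 * s + 4) ↔
      base r 0 (E (t - (s + 1)) (s + 1)) (S (t - (s + 1)) (s + 1))) := fun r hr s =>
    c r hr (s + 1) 0 (by omega)
  have a1 : ∀ o, RO (CC E S) (5 * t + 1) o ↔ ∃ s, RO (CC E S) (5 * t) (4 * s) ∧
      (o = 4 * s ∨ (o = 4 * s + 1 ∧ E (t - s) s)) := by
    intro o
    show (∃ o', RO (CC E S) (5 * t + 0) o' ∧ _) ↔ _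
    constructor
    · rintro ⟨o', h1, h2⟩
      obtain ⟨s, rfl⟩ := h4 o' h1
      refine ⟨s, h1, ?_⟩
      rcases h2 with ⟨_, rfl⟩ | ⟨_, h3, rfl⟩
      · exact Or.inl rfl
      · refine Or.inr ⟨rfl, ?_⟩
        have := (c 0 (by omega) s 1 (by omega)).1 h3
        simpa [base] using this
    · rintro ⟨s, h1, h2⟩
      refine ⟨4 * s, h1, ?_⟩
      have h0 : CC E S (5 * t + 0) (4 * s) := (c0 0 (by omega) s).2 (by simp [base])
      rcases h2 with rfl | ⟨rfl, h3⟩
      · exact Or.inl ⟨h0, rfl⟩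
      · exact Or.inr ⟨h0, (c 0 (by omega) s 1 (by omega)).2 (by simp [base, h3]), rfl⟩
  have a2 : ∀ o, RO (CC E S) (5 * t + 2) o ↔ ∃ s, RO (CC E S) (5 * t) (4 * s) ∧
      ((S (t - s) s ∧ (o = 4 * s ∨ o = 4 * s + 1)) ∨
        (E (t - s) s ∧ (o = 4 * s + 1 ∨ o = 4 * s + 2))) := by
    intro o
    show (∃ o', RO (CC E S) (5 * t + 1) o' ∧ _) ↔ _
    constructor
    · rintro ⟨o', h1, h2⟩
      obtain ⟨s, h0, h3⟩ := (a1 o').1 h1
      refine ⟨s, h0, ?_⟩
      rcases h3 with rfl | ⟨rfl, hE⟩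
      · left
        rcases h2 with ⟨h5, rfl⟩ | ⟨h5, _, rfl⟩
        · exact ⟨by simpa [base] using (c0 1 (by omega) s).1 h5, Or.inl rfl⟩
        · exact ⟨by simpa [base] using (c0 1 (by omega) s).1 h5, Or.inr rfl⟩
      · right
        rcases h2 with ⟨_, rfl⟩ | ⟨_, _, rfl⟩
        · exact ⟨hE, Or.inl rfl⟩
        · exact ⟨hE, Or.inr rfl⟩
    · rintro ⟨s, h0, h3⟩
      rcases h3 with ⟨hS, h5⟩ | ⟨hE, h5⟩
      · refine ⟨4 * s, (a1 _).2 ⟨s, h0, Or.inl rfl⟩, ?_⟩
        have h6 : CC E S (5 * t + 1) (4 * s) := (c0 1 (by omega) s).2 (by simp [base, hS])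
        rcases h5 with rfl | rfl
        · exact Or.inl ⟨h6, rfl⟩
        · exact Or.inr ⟨h6, (c 1 (by omega) s 1 (by omega)).2 (by simp [base]), rfl⟩
      · refine ⟨4 * s + 1, (a1 _).2 ⟨s, h0, Or.inr ⟨rfl, hE⟩⟩, ?_⟩
        have h6 : CC E S (5 * t + 1) (4 * s + 1) :=
          (c 1 (by omega) s 1 (by omega)).2 (by simp [base])
        rcases h5 with rfl | rfl
        · exact Or.inl ⟨h6, rfl⟩
        · exact Or.inr ⟨h6, (c 1 (by omega) s 2 (by omega)).2 (by simp [base]), rfl⟩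
  have a3 : ∀ o, RO (CC E S) (5 * t + 3) o ↔ ∃ s, RO (CC E S) (5 * t) (4 * s) ∧
      ((S (t - s) s ∧ o = 4 * s) ∨
        (E (t - s) s ∧ (o = 4 * s + 2 ∨ o = 4 * s + 3))) := by
    intro o
    show (∃ o', RO (CC E S) (5 * t + 2) o' ∧ _) ↔ _
    constructor
    · rintro ⟨o', h1, h2⟩
      obtain ⟨s, h0, h3⟩ := (a2 o').1 h1
      have hk : ¬ CC E S (5 * t + 2) (4 * s + 1) := by
        rw [c 2 (by omega) s 1 (by omega)]; simp [base]
      refine ⟨s, h0, ?_⟩
      rcases h3 with ⟨hS, rfl | rfl⟩ | ⟨hE, rfl | rfl⟩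
      · left
        rcases h2 with ⟨_, rfl⟩ | ⟨_, h5, _⟩
        · exact ⟨hS, rfl⟩
        · exact absurd h5 hk
      · rcases h2 with ⟨h5, _⟩ | ⟨h5, _⟩ <;> exact absurd h5 hk
      · rcases h2 with ⟨h5, _⟩ | ⟨h5, _⟩ <;> exact absurd h5 hk
      · right
        rcases h2 with ⟨_, rfl⟩ | ⟨_, _, rfl⟩
        · exact ⟨hE, Or.inl rfl⟩
        · exact ⟨hE, Or.inr rfl⟩
    · rintro ⟨s, h0, h3⟩
      rcases h3 with ⟨hS, rfl⟩ | ⟨hE, h5⟩
      · exact ⟨4 * s, (a2 _).2 ⟨s, h0, Or.inl ⟨hS, Or.inl rfl⟩⟩, Or.inl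
          ⟨(c0 2 (by omega) s).2 (by simp [base]), rfl⟩⟩
      · refine ⟨4 * s + 2, (a2 _).2 ⟨s, h0, Or.inr ⟨hE, Or.inr rfl⟩⟩, ?_⟩
        have h6 : CC E S (5 * t + 2) (4 * s + 2) :=
          (c 2 (by omega) s 2 (by omega)).2 (by simp [base])
        rcases h5 with rfl | rfl
        · exact Or.inl ⟨h6, rfl⟩
        · exact Or.inr ⟨h6, (c 2 (by omega) s 3 (by omega)).2 (by simp [base]), rfl⟩
  have a4 : ∀ o, RO (CC E S) (5 * t + 4) o ↔ ∃ s, RO (CC E S) (5 * t) (4 * s) ∧
      ((S (t - s) s ∧ o = 4 * s) ∨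
        (E (t - s) s ∧ (o = 4 * s + 3 ∨ o = 4 * s + 4))) := by
    intro o
    show (∃ o', RO (CC E S) (5 * t + 3) o' ∧ _) ↔ _
    constructor
    · rintro ⟨o', h1, h2⟩
      obtain ⟨s, h0, h3⟩ := (a3 o').1 h1
      refine ⟨s, h0, ?_⟩
      rcases h3 with ⟨hS, rfl⟩ | ⟨hE, rfl | rfl⟩
      · left
        rcases h2 with ⟨_, rfl⟩ | ⟨_, h5, _⟩
        · exact ⟨hS, rfl⟩
        · rw [c 3 (by omega) s 1 (by omega)] at h5
          simp [base] at h5
      · exfalso
        have hk : ¬ CC E S (5 * t + 3) (4 * s + 2) := by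
          rw [c 3 (by omega) s 2 (by omega)]; simp [base]
        rcases h2 with ⟨h5, _⟩ | ⟨h5, _⟩ <;> exact absurd h5 hk
      · right
        rcases h2 with ⟨_, rfl⟩ | ⟨_, _, rfl⟩
        · exact ⟨hE, Or.inl rfl⟩
        · exact ⟨hE, Or.inr rfl⟩
    · rintro ⟨s, h0, h3⟩
      rcases h3 with ⟨hS, rfl⟩ | ⟨hE, h5⟩
      · exact ⟨4 * s, (a3 _).2 ⟨s, h0, Or.inl ⟨hS, rfl⟩⟩, Or.inl
          ⟨(c0 3 (by omega) s).2 (by simp [base]), rfl⟩⟩
      · refine ⟨4 * s + 3, (a3 _).2 ⟨s, h0, Or.inr ⟨hE, Or.inr rfl⟩⟩, ?_⟩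
        have h6 : CC E S (5 * t + 3) (4 * s + 3) :=
          (c 3 (by omega) s 3 (by omega)).2 (by simp [base])
        rcases h5 with rfl | rfl
        · exact Or.inl ⟨h6, rfl⟩
        · exact Or.inr ⟨h6, (c4 3 (by omega) s).2 (by simp [base]), rfl⟩
  refine ⟨a1, a2, a3, a4, ?_⟩
  intro o
  show (∃ o', RO (CC E S) (5 * t + 4) o' ∧ _) ↔ _
  constructor
  · rintro ⟨o', h1, h2⟩
    obtain ⟨s, h0, h3⟩ := (a4 o').1 h1
    refine ⟨s, h0, ?_⟩
    rcases h3 with ⟨hS, rfl⟩ | ⟨hE, rfl | rfl⟩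
    · left
      rcases h2 with ⟨_, rfl⟩ | ⟨_, h5, _⟩
      · exact ⟨hS, rfl⟩
      · rw [c 4 (by omega) s 1 (by omega)] at h5
        simp [base] at h5
    · exfalso
      have hk : ¬ CC E S (5 * t + 4) (4 * s + 3) := by
        rw [c 4 (by omega) s 3 (by omega)]; simp [base]
      rcases h2 with ⟨h5, _⟩ | ⟨h5, _⟩ <;> exact absurd h5 hk
    · right
      rcases h2 with ⟨_, rfl⟩ | ⟨_, h5, _⟩
      · exact ⟨hE, rfl⟩
      · rw [show 4 * s + 4 + 1 = 4 * (s + 1) + 1 by ring,
          c 4 (by omega) (s + 1) 1 (by omega)] at h5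
        simp [base] at h5
  · rintro ⟨s, h0, h3⟩
    rcases h3 with ⟨hS, rfl⟩ | ⟨hE, rfl⟩
    · exact ⟨4 * s, (a4 _).2 ⟨s, h0, Or.inl ⟨hS, rfl⟩⟩, Or.inl
        ⟨(c0 4 (by omega) s).2 (by simp [base]), rfl⟩⟩
    · exact ⟨4 * s + 4, (a4 _).2 ⟨s, h0, Or.inr ⟨hE, Or.inr rfl⟩⟩, Or.inl
        ⟨(c4 4 (by omega) s).2 (by simp [base]), rfl⟩⟩

theorem ro_time (t : ℕ) : ∀ o, RO (CC E S) (5 * t) o ↔ ∃ s, o = 4 * s ∧ s ≤ t ∧
    Relation.ReflTransGen (GStep E S) (0, 0) (t - s, s) := by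
  induction t with
  | zero =>
    intro o
    constructor
    · intro h
      have : o = 0 := h
      subst this
      exact ⟨0, rfl, le_rfl, Relation.ReflTransGen.refl⟩
    · rintro ⟨s, rfl, hs, _⟩
      have : s = 0 := by omega
      subst this
      rfl
  | succ t ih =>
    intro o
    have h5 := (ro_five (E := E) (S := S) t fun o h => by
      obtain ⟨s, h1, _⟩ := (ih o).1 h
      exact ⟨s, h1⟩).2.2.2.2 o
    rw [show 5 * (t + 1) = 5 * t + 5 by ring, h5]
    constructor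
    · rintro ⟨s, h1, h2⟩
      obtain ⟨s', e1, e2, e3⟩ := (ih _).1 h1
      have : s' = s := by omega
      subst this
      rcases h2 with ⟨hS, rfl⟩ | ⟨hE, rfl⟩
      · refine ⟨s', rfl, by omega, ?_⟩
        rw [show t + 1 - s' = (t - s') + 1 by omega]
        exact e3.tail (GStep.south hS)
      · refine ⟨s' + 1, by ring, by omega, ?_⟩
        rw [show t + 1 - (s' + 1) = t - s' by omega]
        exact e3.tail (GStep.east hE)
    · rintro ⟨s, rfl, hs, h⟩
      generalize hc : (t + 1 - s, s) = c at h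
      rcases Relation.ReflTransGen.cases_tail h with h | ⟨c', h1, h2⟩
      · rw [← hc] at h
        simp only [Prod.mk.injEq] at h
        omega
      · cases h2 with
        | @east i j hE =>
          simp only [Prod.mk.injEq] at hc
          obtain ⟨h3, rfl⟩ := hc
          have : i = t - j := by omega
          subst this
          exact ⟨j, (ih _).2 ⟨j, rfl, by omega, h1⟩, Or.inr ⟨hE, by ring⟩⟩
        | @south i j hS =>
          simp only [Prod.mk.injEq] at hc
          obtain ⟨h3, rfl⟩ := hc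
          have : i = t - s := by omega
          subst this
          exact ⟨s, (ih _).2 ⟨s, rfl, by omega, h1⟩, Or.inl ⟨hS, rfl⟩⟩

theorem ro_bound {n : ℕ} (hn : 0 < n) (hE : ∀ i j, E i j → j + 1 < n) :
    ∀ k o, RO (CC E S) k o → o ≤ 4 * n := by
  have h0 : ∀ c : ℕ × ℕ, Relation.ReflTransGen (GStep E S) (0, 0) c → c.2 < n := by
    intro c hc
    induction hc with
    | refl => exact hn
    | tail _ h ih =>
      cases h with
      | east h => exact hE _ _ h
      | south h => exact ih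
  have h1 : ∀ t s, RO (CC E S) (5 * t) (4 * s) → s < n := by
    intro t s h
    obtain ⟨s', e1, _, e3⟩ := (ro_time t _).1 h
    have : s' = s := by omega
    subst this
    exact h0 _ e3
  intro k o h
  have h4 : ∀ t, ∀ o, RO (CC E S) (5 * t) o → ∃ s, o = 4 * s := fun t o h => by
    obtain ⟨s, h1, _⟩ := (ro_time t o).1 h
    exact ⟨s, h1⟩
  obtain ⟨a1, a2, a3, a4, _⟩ := ro_five (E := E) (S := S) (k / 5) (h4 _)
  have hk : k = 5 * (k / 5) + k % 5 := by omega
  have hlt : k % 5 < 5 := Nat.mod_lt _ (by omega)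
  rw [hk] at h
  generalize k % 5 = r at h hlt
  interval_cases r
  · obtain ⟨s, rfl⟩ := h4 _ _ h
    have := h1 _ _ h
    omega
  · obtain ⟨s, e1, e2⟩ := (a1 o).1 h
    have := h1 _ _ e1
    omega
  · obtain ⟨s, e1, e2⟩ := (a2 o).1 h
    have := h1 _ _ e1
    omega
  · obtain ⟨s, e1, e2⟩ := (a3 o).1 h
    have := h1 _ _ e1
    omega
  · obtain ⟨s, e1, e2⟩ := (a4 o).1 h
    have := h1 _ _ e1
    omega

end gadget

section reduction

/-- The grid graph and the word of the grammar. -/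
theorem hw_grid {E S : ℕ → ℕ → Prop} {n I J : ℕ} (hn : 0 < n)
    (hE : ∀ i j, E i j → j + 1 < n) :
    hw (5 * (I + J)) (4 * n + 4) (5 * (I + J) * (4 * n + 4) + 4 * J)
      (fun i => CC E S (i / (4 * n + 4)) (i % (4 * n + 4))) ∈ G4.language ↔
    Relation.ReflTransGen (GStep E S) (0, 0) (I, J) := by
  rw [hw_mem, rn_iff _ le_rfl, rn_rd (by omega), rd_ro (fun k o h => by
    have := ro_bound hn hE k o h
    omega)]
  constructor
  · rintro ⟨_, o, h1, h2⟩
    have : o = 4 * J := by omega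
    subst this
    obtain ⟨s, e1, _, e3⟩ := (ro_time (I + J) _).1 h1
    have : s = J := by omega
    subst this
    rwa [Nat.add_sub_cancel] at e3
  · intro h
    refine ⟨by omega, 4 * J, (ro_time (I + J) _).2 ⟨J, rfl, by omega, ?_⟩, rfl⟩
    rwa [Nat.add_sub_cancel]

/-- Edges to the east. -/
def eE (n : ℕ) (w : List (Bool × Bool × Bool)) (i j : ℕ) : Prop :=
  (i < n ∧ j + 1 < n) ∧ ∃ b c, w[i * n + j]? = some (true, b, c)

/-- Edges to the south. -/
def eS (n : ℕ) (w : List (Bool × Bool × Bool)) (i j : ℕ) : Prop :=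
  (i + 1 < n ∧ j < n) ∧ ∃ b c, w[i * n + j]? = some (b, true, c)

theorem gridStep_iff {n : ℕ} {w : List (Bool × Bool × Bool)} {c c' : ℕ × ℕ} :
    GridStep n w c c' ↔ GStep (eE n w) (eS n w) c c' := by
  constructor
  · intro h
    cases h with
    | east h1 h2 h3 => exact GStep.east ⟨⟨h1, h2⟩, _, _, h3⟩
    | south h1 h2 h3 => exact GStep.south ⟨⟨h1, h2⟩, _, _, h3⟩
  · intro h
    cases h with
    | east h => obtain ⟨⟨h1, h2⟩, b, c, h3⟩ := h; exact GridStep.east h1 h2 h3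
    | south h => obtain ⟨⟨h1, h2⟩, b, c, h3⟩ := h; exact GridStep.south h1 h2 h3

theorem lggr_iff {w : List (Bool × Bool × Bool)} : w ∈ LGGR ↔
    ∃ n < w.length + 1, ∃ I < n, ∃ J < n, (w.length = n * n ∧
      ∃ b c, w[I * n + J]? = some (b, c, true)) ∧
      hw (5 * (I + J)) (4 * n + 4) (5 * (I + J) * (4 * n + 4) + 4 * J)
        (fun i => CC (eE n w) (eS n w) (i / (4 * n + 4)) (i % (4 * n + 4))) ∈ G4.language := by
  have hrel : ∀ n c, Relation.ReflTransGen (GridStep n w) (0, 0) c ↔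
      Relation.ReflTransGen (GStep (eE n w) (eS n w)) (0, 0) c := fun n c =>
    ⟨rtg_mono fun _ _ => gridStep_iff.1, rtg_mono fun _ _ => gridStep_iff.2⟩
  constructor
  · rintro ⟨n, I, J, h1, h2, h3, h4, h5⟩
    refine ⟨n, by nlinarith, I, h2, J, h3, ⟨h1, h4⟩, ?_⟩
    rw [hw_grid (by omega) fun i j h => h.1.2]
    exact (hrel _ _).1 h5
  · rintro ⟨n, _, I, h2, J, h3, ⟨h1, h4⟩, h5⟩
    refine ⟨n, I, J, h1, h2, h3, h4, ?_⟩
    rw [hw_grid (by omega) fun i j h => h.1.2] at h5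
    exact (hrel _ _).2 h5

variable {Y : Type} [Cod Y]

theorem FP.bools {f : List (Bool × Bool × Bool) → Y → ℕ} (hf : Fn f)
    (p : Bool × Bool × Bool → Prop) :
    FP fun w y => ∃ x, w[f w y]? = some x ∧ p x := FP.exLetter hf p

theorem FP.eE {n i j : List (Bool × Bool × Bool) → Y → ℕ} (hn : Fn n) (hi : Fn i) (hj : Fn j) :
    FP fun w y => LinTwo.eE (n w y) w (i w y) (j w y) := by
  refine (((FP.lt hi hn).and (FP.lt hj.succ hn)).and (FP.exLetter ((hi.mul hn).add hj)
    (fun x => x.1 = true))).congr fun w y => ?_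
  unfold LinTwo.eE
  constructor
  · rintro ⟨h1, b, c, h2⟩
    exact ⟨h1, _, h2, rfl⟩
  · rintro ⟨h1, ⟨x, b, c⟩, h2, h3⟩
    simp only at h3
    subst h3
    exact ⟨h1, b, c, h2⟩

theorem FP.eS {n i j : List (Bool × Bool × Bool) → Y → ℕ} (hn : Fn n) (hi : Fn i) (hj : Fn j) :
    FP fun w y => LinTwo.eS (n w y) w (i w y) (j w y) := by
  refine (((FP.lt hi.succ hn).and (FP.lt hj hn)).and (FP.exLetter ((hi.mul hn).add hj)
    (fun x => x.2.1 = true))).congr fun w y => ?_
  unfold LinTwo.eS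
  constructor
  · rintro ⟨h1, b, c, h2⟩
    exact ⟨h1, _, h2, rfl⟩
  · rintro ⟨h1, ⟨x, b, c⟩, h2, h3⟩
    simp only at h3
    subst h3
    exact ⟨h1, x, c, h2⟩

theorem FP.CC {n k o : List (Bool × Bool × Bool) → Y → ℕ} (hn : Fn n) (hk : Fn k) (ho : Fn o) :
    FP fun w y => LinTwo.CC (LinTwo.eE (n w y) w) (LinTwo.eS (n w y) w) (k w y) (o w y) := by
  unfold LinTwo.CC base
  have hr : Fn fun w y => k w y % 5 := hk.mod (Fn.const 5)
  have hoff : Fn fun w y => o w y % 4 := ho.mod (Fn.const 4)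
  have hs : Fn fun w y => o w y / 4 := ho.div (Fn.const 4)
  have hi : Fn fun w y => k w y / 5 - o w y / 4 := (hk.div (Fn.const 5)).sub hs
  have he := FP.eE hn hi hs
  have hso := FP.eS hn hi hs
  have r : ∀ m, FP fun w y => k w y % 5 = m := fun m => FP.eq hr (Fn.const m)
  have f : ∀ m, FP fun w y => o w y % 4 = m := fun m => FP.eq hoff (Fn.const m)
  exact ((r 0).and ((f 0).or ((f 1).and he))).or (((r 1).and (((f 0).and hso).or
    ((f 1).or (f 2)))).or (((r 2).and ((f 0).or ((f 2).or (f 3)))).or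
    (((r 3).and ((f 0).or (f 3))).or ((r 4).and (f 0)))))

theorem inL_lggr (h : InL G4.language) : InL LGGR := by
  refine inL_of_FP _ (fun w _ => ∃ n < w.length + 1, ∃ I < n, ∃ J < n, (w.length = n * n ∧
      ∃ b c, w[I * n + J]? = some (b, c, true)) ∧
      hw (5 * (I + J)) (4 * n + 4) (5 * (I + J) * (4 * n + 4) + 4 * J)
        (fun i => CC (eE n w) (eS n w) (i / (4 * n + 4)) (i % (4 * n + 4))) ∈ G4.language)
    ?_ fun w => lggr_iff.symm
  refine FP.bex (b := fun w (_ : Unit) => w.length + 1) Fn.lenSucc (P := fun w (z : Unit × ℕ) =>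
      ∃ I < z.2, ∃ J < z.2, (w.length = z.2 * z.2 ∧
      ∃ b c, w[I * z.2 + J]? = some (b, c, true)) ∧
      hw (5 * (I + J)) (4 * z.2 + 4) (5 * (I + J) * (4 * z.2 + 4) + 4 * J)
        (fun i => CC (eE z.2 w) (eS z.2 w) (i / (4 * z.2 + 4)) (i % (4 * z.2 + 4))) ∈
        G4.language) ?_
  refine FP.bex (b := fun w (z : Unit × ℕ) => z.2) Fn.id.snd
      (P := fun w (z : (Unit × ℕ) × ℕ) =>
      ∃ J < z.1.2, (w.length = z.1.2 * z.1.2 ∧
      ∃ b c, w[z.2 * z.1.2 + J]? = some (b, c, true)) ∧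
      hw (5 * (z.2 + J)) (4 * z.1.2 + 4) (5 * (z.2 + J) * (4 * z.1.2 + 4) + 4 * J)
        (fun i => CC (eE z.1.2 w) (eS z.1.2 w) (i / (4 * z.1.2 + 4)) (i % (4 * z.1.2 + 4))) ∈
        G4.language) ?_
  refine FP.bex (b := fun w (z : (Unit × ℕ) × ℕ) => z.1.2) Fn.id.fst.snd
      (P := fun w (z : ((Unit × ℕ) × ℕ) × ℕ) => (w.length = z.1.1.2 * z.1.1.2 ∧
      ∃ b c, w[z.1.2 * z.1.1.2 + z.2]? = some (b, c, true)) ∧
      hw (5 * (z.1.2 + z.2)) (4 * z.1.1.2 + 4)
        (5 * (z.1.2 + z.2) * (4 * z.1.1.2 + 4) + 4 * z.2)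
        (fun i => CC (eE z.1.1.2 w) (eS z.1.1.2 w) (i / (4 * z.1.1.2 + 4))
          (i % (4 * z.1.1.2 + 4))) ∈ G4.language) ?_
  let X := ((Unit × ℕ) × ℕ) × ℕ
  have hn : Fn fun (w : List (Bool × Bool × Bool)) (z : X) => z.1.1.2 := Fn.id.fst.fst.snd
  have hI : Fn fun (w : List (Bool × Bool × Bool)) (z : X) => z.1.2 := Fn.id.fst.snd
  have hJ : Fn fun (w : List (Bool × Bool × Bool)) (z : X) => z.2 := Fn.id.snd
  have hK : Fn fun (w : List (Bool × Bool × Bool)) (z : X) => 5 * (z.1.2 + z.2) :=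
    (Fn.const 5).mul (hI.add hJ)
  have hD : Fn fun (w : List (Bool × Bool × Bool)) (z : X) => 4 * z.1.1.2 + 4 :=
    ((Fn.const 4).mul hn).add (Fn.const 4)
  have hKD := hK.mul hD
  have hYY : Fn fun (w : List (Bool × Bool × Bool)) (z : X) =>
      5 * (z.1.2 + z.2) * (4 * z.1.1.2 + 4) + 4 * z.2 := hKD.add ((Fn.const 4).mul hJ)
  refine ((FP.eq Fn.len (hn.mul hn)).and ?_).and ?_
  · refine (FP.exLetter ((hI.mul hn).add hJ) (fun x => x.2.2 = true)).congr fun w y => ?_
    constructor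
    · rintro ⟨b, c, h2⟩
      exact ⟨_, h2, rfl⟩
    · rintro ⟨⟨x, b, c⟩, h2, h3⟩
      simp only at h3
      subst h3
      exact ⟨x, b, h2⟩
  · refine FP.inL_comp h (V := fun w (z : X) => hw (5 * (z.1.2 + z.2)) (4 * z.1.1.2 + 4)
        (5 * (z.1.2 + z.2) * (4 * z.1.1.2 + 4) + 4 * z.2)
        (fun i => CC (eE z.1.1.2 w) (eS z.1.1.2 w) (i / (4 * z.1.1.2 + 4))
          (i % (4 * z.1.1.2 + 4)))) ?_ ?_
    · simp only [hw_length]
      exact hKD.succ.add hYY
    · intro β
      -- parameters `(x, m)`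
      have hm : Fn fun (w : List (Bool × Bool × Bool)) (z : X × ℕ) => z.2 := Fn.id.snd
      have g : ∀ {f : List (Bool × Bool × Bool) → X → ℕ}, Fn f →
          Fn fun (w : List (Bool × Bool × Bool)) (z : X × ℕ) => f w z.1 := fun hf =>
        hf.comp Fn.id.fst
      have hlen := (g hKD).succ.add (g hYY)
      have h1 := FP.lt hm hlen
      have h2 := FP.lt hm (g hKD)
      have h3 := FP.eq (hm.mod (g hD)) (Fn.const 0)
      have h4 := FP.eq hm (g hKD)
      have hidx := ((g hKD).add (g hYY)).sub hm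
      have h5 := FP.CC (g hn) (hidx.div (g hD)) (hidx.mod (g hD))
      simp only [hw_get]
      cases β with
      | a =>
        refine (h1.and (h2.and h3.not)).congr fun w z => ?_
        split_ifs <;> simp_all
      | b =>
        refine (h1.and (h2.and h3)).congr fun w z => ?_
        split_ifs <;> simp_all
      | c =>
        refine (h1.and (h2.not.and h4)).congr fun w z => ?_
        split_ifs <;> simp_all
      | zero =>
        refine (h1.and (h2.not.and (h4.not.and h5))).congr fun w z => ?_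
        split_ifs <;> simp_all
      | one =>
        refine (h1.and (h2.not.and (h4.not.and h5.not))).congr fun w z => ?_
        split_ifs <;> simp_all

end reduction

end Pool.Agent.Helper38.LinTwo
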